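import Pool.Agent.Helper89.GP.GoalsA

/-!
# Project GP: the law of one coordinate (GMB)
-/

namespace Pool.Agent.Helper94.GP

open Finset MeasureTheory
open Pool.Agent.Helper89.GP

theorem meas_sup (n : ℕ) : Measurable fun x : Fin n → ℝ => ⨆ a, x a :=
  Measurable.iSup fun i => measurable_pi_apply i

theorem meas_w (n : ℕ) : Measurable fun x : Fin n → ℝ =>
    ENNReal.ofReal (Real.exp (-⨆ a, x a)) :=
  ENNReal.measurable_ofReal.comp (Real.measurable_exp.comp (meas_sup n).neg)

theorem meas_Ch {n : ℕ} (σ : Equiv.Perm (Fin n)) : MeasurableSet (Ch σ) := by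
  have h : Ch σ = (⋂ a, {x : Fin n → ℝ | 0 < x a}) ∩
      ⋂ a, ⋂ b, ⋂ (_ : σ a < σ b), {x : Fin n → ℝ | x a < x b} := by
    ext x
    simp [Ch]
  rw [h]
  refine MeasurableSet.inter ?_ ?_
  · exact MeasurableSet.iInter fun a => measurableSet_lt measurable_const (measurable_pi_apply a)
  · exact MeasurableSet.iInter fun a => MeasurableSet.iInter fun b => MeasurableSet.iInter fun _ =>
      measurableSet_lt (measurable_pi_apply a) (measurable_pi_apply b)

theorem sup_cons {n : ℕ} {r : ℝ} (hr : 0 < r) {y : Fin n → ℝ}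
    (hy : y ∈ Ch (1 : Equiv.Perm (Fin n))) :
    (⨆ a, (Fin.cons r (fun i => r + y i) : Fin (n + 1) → ℝ) a) = r + ⨆ a, y a := by
  have hpos : ∀ i, 0 < y i := hy.1
  have hbd : BddAbove (Set.range y) := Set.Finite.bddAbove (Set.finite_range y)
  have hbd' : BddAbove (Set.range (Fin.cons r (fun i => r + y i) : Fin (n + 1) → ℝ)) :=
    Set.Finite.bddAbove (Set.finite_range _)
  have hsup0 : 0 ≤ ⨆ a, y a := Real.iSup_nonneg fun i => (hpos i).le
  apply le_antisymm
  · apply ciSup_le
    intro a
    refine Fin.cases ?_ (fun i => ?_) a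
    · rw [Fin.cons_zero]; linarith
    · rw [Fin.cons_succ]
      have := le_ciSup hbd i
      linarith
  · have h0 : r ≤ ⨆ a, (Fin.cons r (fun i => r + y i) : Fin (n + 1) → ℝ) a := by
      have := le_ciSup hbd' 0
      rwa [Fin.cons_zero] at this
    rcases Nat.eq_zero_or_pos n with hn | hn
    · subst hn
      rw [Real.iSup_of_isEmpty]
      linarith
    · haveI : Nonempty (Fin n) := ⟨⟨0, hn⟩⟩
      have h1 : ∀ i, y i ≤ (⨆ a, (Fin.cons r (fun i => r + y i) : Fin (n + 1) → ℝ) a) - r := by
        intro i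
        have := le_ciSup hbd' i.succ
        rw [Fin.cons_succ] at this
        linarith
      have := ciSup_le h1
      linarith

theorem exp_cons {n : ℕ} {r : ℝ} (hr : 0 < r) {y : Fin n → ℝ}
    (hy : y ∈ Ch (1 : Equiv.Perm (Fin n))) :
    ENNReal.ofReal (Real.exp (-⨆ a, (Fin.cons r (fun i => r + y i) : Fin (n + 1) → ℝ) a)) =
      ENNReal.ofReal (Real.exp (-r)) * ENNReal.ofReal (Real.exp (-⨆ a, y a)) := by
  rw [sup_cons hr hy, ← ENNReal.ofReal_mul (Real.exp_nonneg _), ← Real.exp_add]
  congr 2
  ring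

/-- the integral over `q` between `0` and `w` -/
theorem inner_pow (w : ℝ) (k : ℕ) (hw : 0 < w) :
    ∫⁻ q in Set.Ioo (0 : ℝ) w, ENNReal.ofReal (Real.exp (-w) * q ^ k / (k.factorial : ℝ)) =
      ENNReal.ofReal (Real.exp (-w) * w ^ (k + 1) / ((k + 1).factorial : ℝ)) := by
  have hk : (0 : ℝ) < (k.factorial : ℝ) := by exact_mod_cast Nat.factorial_pos k
  have h1 : ∫⁻ q in Set.Ioo (0 : ℝ) w,
      ENNReal.ofReal (Real.exp (-w) * q ^ k / (k.factorial : ℝ)) =
      ENNReal.ofReal (∫ q in Set.Ioo (0 : ℝ) w, Real.exp (-w) * q ^ k / (k.factorial : ℝ)) := by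
    rw [ofReal_integral_eq_lintegral_ofReal]
    · have hc : Continuous fun q : ℝ => Real.exp (-w) * q ^ k / (k.factorial : ℝ) := by
        fun_prop
      exact (hc.integrableOn_Icc (a := 0) (b := w)).mono_set Set.Ioo_subset_Icc_self
    · rw [Filter.EventuallyLE, ae_restrict_iff' measurableSet_Ioo]
      refine Filter.Eventually.of_forall fun q hq => ?_
      have := hq.1
      change (0 : ℝ) ≤ _
      positivity
  rw [h1, ← integral_Ioc_eq_integral_Ioo, ← intervalIntegral.integral_of_le hw.le]
  congr 1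
  have h2 : ∫ q in (0 : ℝ)..w, Real.exp (-w) * q ^ k / (k.factorial : ℝ) =
      (Real.exp (-w) / (k.factorial : ℝ)) * ∫ q in (0 : ℝ)..w, q ^ k := by
    rw [← intervalIntegral.integral_const_mul]
    congr 1
    ext q
    ring
  rw [h2, integral_pow, Nat.factorial_succ]
  push_cast
  have hk1 : (k : ℝ) + 1 ≠ 0 := by positivity
  field_simp
  ring

/-- the convolution with `exp (-r)` -/
theorem conv (φ : ℝ → ENNReal) (hφ : Measurable φ) (k : ℕ) :
    ∫⁻ r in Set.Ioi (0 : ℝ), ENNReal.ofReal (Real.exp (-r)) *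
      ∫⁻ q in Set.Ioi (0 : ℝ), φ (r + q) * ENNReal.ofReal (Real.exp (-q) * q ^ k /
        (k.factorial : ℝ)) =
    ∫⁻ w in Set.Ioi (0 : ℝ), φ w * ENNReal.ofReal (Real.exp (-w) * w ^ (k + 1) /
      ((k + 1).factorial : ℝ)) := by
  have hk : (0 : ℝ) < (k.factorial : ℝ) := by exact_mod_cast Nat.factorial_pos k
  set ψ : ℝ → ℝ → ENNReal := fun w q => φ w * ENNReal.ofReal (Real.exp (-w) * q ^ k /
    (k.factorial : ℝ)) with hψ
  have hψm : Measurable (Function.uncurry ψ) := by
    apply Measurable.mul (hφ.comp measurable_fst)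
    apply ENNReal.measurable_ofReal.comp
    have : Continuous fun p : ℝ × ℝ => Real.exp (-p.1) * p.2 ^ k / (k.factorial : ℝ) := by
      fun_prop
    exact this.measurable
  -- the set `0 < q < w`
  set S : Set (ℝ × ℝ) := {p | 0 < p.2 ∧ p.2 < p.1} with hS
  have hSm : MeasurableSet S :=
    (measurableSet_lt measurable_const measurable_snd).inter
      (measurableSet_lt measurable_snd measurable_fst)
  set F : ℝ → ℝ → ENNReal := fun w q => S.indicator (Function.uncurry ψ) (w, q) with hF
  have hFm : Measurable (Function.uncurry F) := hψm.indicator hSm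
  have hFm' : Measurable (Function.uncurry fun q w => F w q) := hFm.comp measurable_swap
  -- the left side
  have h1 : ∫⁻ r in Set.Ioi (0 : ℝ), ENNReal.ofReal (Real.exp (-r)) *
      ∫⁻ q in Set.Ioi (0 : ℝ), φ (r + q) * ENNReal.ofReal (Real.exp (-q) * q ^ k /
        (k.factorial : ℝ)) = ∫⁻ r, ∫⁻ q, F (r + q) q := by
    rw [← lintegral_indicator measurableSet_Ioi]
    apply lintegral_congr
    intro r
    by_cases hr : 0 < r
    · rw [Set.indicator_of_mem (by exact hr : r ∈ Set.Ioi (0 : ℝ))]
      rw [← lintegral_const_mul _ (by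
        apply Measurable.mul (hφ.comp (measurable_const_add r))
        apply ENNReal.measurable_ofReal.comp
        have : Continuous fun q : ℝ => Real.exp (-q) * q ^ k / (k.factorial : ℝ) := by fun_prop
        exact this.measurable)]
      rw [← lintegral_indicator measurableSet_Ioi]
      apply lintegral_congr
      intro q
      by_cases hq : 0 < q
      · rw [Set.indicator_of_mem (by exact hq : q ∈ Set.Ioi (0 : ℝ))]
        have hm : ((r + q, q) : ℝ × ℝ) ∈ S := ⟨hq, by change q < r + q; linarith⟩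
        simp only [hF]
        rw [Set.indicator_of_mem hm]
        simp only [Function.uncurry, hψ]
        rw [mul_left_comm, ← ENNReal.ofReal_mul (Real.exp_nonneg _)]
        congr 2
        rw [neg_add, Real.exp_add]
        ring
      · rw [Set.indicator_of_notMem (by exact hq : q ∉ Set.Ioi (0 : ℝ))]
        have hm : ((r + q, q) : ℝ × ℝ) ∉ S := fun h => hq h.1
        simp only [hF]
        rw [Set.indicator_of_notMem hm]
    · rw [Set.indicator_of_notMem (by exact hr : r ∉ Set.Ioi (0 : ℝ))]
      symm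
      have hz : ∀ q, F (r + q) q = 0 := by
        intro q
        have hm : ((r + q, q) : ℝ × ℝ) ∉ S := fun h => hr (by
          have := h.2
          change q < r + q at this
          linarith)
        exact Set.indicator_of_notMem hm _
      simp only [hz, lintegral_zero]
  have h2 : ∫⁻ r, ∫⁻ q, F (r + q) q = ∫⁻ q, ∫⁻ r, F (r + q) q := by
    apply lintegral_lintegral_swap
    exact (hFm.comp (((measurable_fst.add measurable_snd)).prodMk measurable_snd)).aemeasurable
  have h3 : ∫⁻ q, ∫⁻ r, F (r + q) q = ∫⁻ q, ∫⁻ w, F w q := by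
    apply lintegral_congr
    intro q
    exact lintegral_add_right_eq_self (fun w => F w q) q
  have h4 : ∫⁻ q, ∫⁻ w, F w q = ∫⁻ w, ∫⁻ q, F w q :=
    lintegral_lintegral_swap hFm'.aemeasurable
  rw [h1, h2, h3, h4, ← lintegral_indicator measurableSet_Ioi]
  apply lintegral_congr
  intro w
  by_cases hw : 0 < w
  · rw [Set.indicator_of_mem (by exact hw : w ∈ Set.Ioi (0 : ℝ)), ← inner_pow w k hw,
      ← lintegral_const_mul _ (by
        apply ENNReal.measurable_ofReal.comp
        have : Continuous fun q : ℝ => Real.exp (-w) * q ^ k / (k.factorial : ℝ) := by fun_prop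
        exact this.measurable), ← lintegral_indicator measurableSet_Ioo]
    apply lintegral_congr
    intro q
    by_cases hq : 0 < q ∧ q < w
    · rw [Set.indicator_of_mem (by exact hq : q ∈ Set.Ioo (0 : ℝ) w)]
      change S.indicator (Function.uncurry ψ) (w, q) = _
      rw [Set.indicator_of_mem (by exact hq : ((w, q) : ℝ × ℝ) ∈ S)]
      rfl
    · rw [Set.indicator_of_notMem (by exact hq : q ∉ Set.Ioo (0 : ℝ) w)]
      change S.indicator (Function.uncurry ψ) (w, q) = _
      rw [Set.indicator_of_notMem (by exact hq : ((w, q) : ℝ × ℝ) ∉ S)]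
  · rw [Set.indicator_of_notMem (by exact hw : w ∉ Set.Ioi (0 : ℝ))]
    have hz : ∀ q, F w q = 0 := by
      intro q
      have hm : ((w, q) : ℝ × ℝ) ∉ S := fun h => hw (by
        have h1 : 0 < q := h.1
        have h2 : q < w := h.2
        linarith)
      exact Set.indicator_of_notMem hm _
    simp only [hz, lintegral_zero]

theorem gmb (hP : PeelStmt) (hM : MstStmt) : GmbStmt := by
  intro n
  induction n with
  | zero => intro φ j; exact j.elim0
  | succ n ih =>
    intro φ j hφ
    rw [hP n (fun x => φ (x j) * ENNReal.ofReal (Real.exp (-⨆ a, x a)))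
      ((hφ.comp (measurable_pi_apply j)).mul (meas_w (n + 1)))]
    refine Fin.cases ?_ (fun j' => ?_) j
    · apply setLIntegral_congr_fun measurableSet_Ioi
      intro r hr
      have h1 : ∫⁻ y in Ch (1 : Equiv.Perm (Fin n)),
          φ ((Fin.cons r (fun i => r + y i) : Fin (n + 1) → ℝ) 0) *
          ENNReal.ofReal (Real.exp (-⨆ a, (Fin.cons r (fun i => r + y i) :
            Fin (n + 1) → ℝ) a)) =
          ∫⁻ y in Ch (1 : Equiv.Perm (Fin n)), (φ r * ENNReal.ofReal (Real.exp (-r))) *
            ENNReal.ofReal (Real.exp (-⨆ a, y a)) := by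
        apply setLIntegral_congr_fun (meas_Ch _)
        intro y hy
        change _ = _
        dsimp only
        rw [exp_cons hr hy, Fin.cons_zero, mul_assoc]
      change ∫⁻ y in Ch (1 : Equiv.Perm (Fin n)),
          φ ((Fin.cons r (fun i => r + y i) : Fin (n + 1) → ℝ) 0) *
          ENNReal.ofReal (Real.exp (-⨆ a, (Fin.cons r (fun i => r + y i) :
            Fin (n + 1) → ℝ) a)) = _
      rw [h1, lintegral_const_mul _ (meas_w n), hM n, mul_one]
      simp
    · have h1 : ∀ r ∈ Set.Ioi (0 : ℝ), ∫⁻ y in Ch (1 : Equiv.Perm (Fin n)),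
          φ ((Fin.cons r (fun i => r + y i) : Fin (n + 1) → ℝ) j'.succ) *
          ENNReal.ofReal (Real.exp (-⨆ a, (Fin.cons r (fun i => r + y i) :
            Fin (n + 1) → ℝ) a)) =
          ENNReal.ofReal (Real.exp (-r)) * ∫⁻ q in Set.Ioi (0 : ℝ), φ (r + q) *
            ENNReal.ofReal (Real.exp (-q) * q ^ (j' : ℕ) / ((j' : ℕ).factorial : ℝ)) := by
        intro r hr
        have hms : Measurable fun y : Fin n → ℝ => φ (r + y j') *
            ENNReal.ofReal (Real.exp (-⨆ a, y a)) :=
          ((hφ.comp (measurable_const_add r)).comp (measurable_pi_apply j')).mul (meas_w n)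
        rw [← ih (fun q => φ (r + q)) j' (hφ.comp (measurable_const_add r)),
          ← lintegral_const_mul _ hms]
        apply setLIntegral_congr_fun (meas_Ch _)
        intro y hy
        dsimp only
        rw [exp_cons hr hy, Fin.cons_succ]
        ring
      rw [setLIntegral_congr_fun measurableSet_Ioi h1, conv φ hφ (j' : ℕ)]
      simp

end Pool.Agent.Helper94.GP
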